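import Pool.Agent.H41.HYP.S2
import Pool.Agent.H5.AVS.RIP

/-!
# HYP, module INO: from the completion to `F[t]`
-/

set_option autoImplicit false

namespace Pool.HYP.INO

open Polynomial Matrix Pool.AVS Pool.AVS.RIP

variable {F : Type} [Field F] {P : F[X]} {L : Type} [Field L] {O : ValuationSubring L}
  {ι : RatFunc F →+* L}

/-- The reduction on `F[t]`. -/
noncomputable def res (hP : Irreducible P) (h : IsComp F (IP P) (rf P) L O ι) :
    F[X] →+* IsLocalRing.ResidueField O := (IsLocalRing.residue O).comp (phi hP h)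

theorem res_zero (hP : Irreducible P) (h : IsComp F (IP P) (rf P) L O ι) (a : F[X]) :
    res hP h a = 0 ↔ P ∣ a := by
  have h1 := dvd_iff hP h 1 a
  rw [pow_one, pow_one] at h1
  rw [← h1]
  show IsLocalRing.residue O (phi hP h a) = 0 ↔ _
  rw [IsLocalRing.residue_eq_zero_iff, mem_max h.loc]
  rfl

theorem res_surj (hP : Irreducible P) (h : IsComp F (IP P) (rf P) L O ι) :
    Function.Surjective (res hP h) := by
  intro y
  obtain ⟨z, rfl⟩ := IsLocalRing.residue_surjective y
  obtain ⟨p, hp⟩ := ex_poly hP h 1 z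
  rw [pow_one] at hp
  refine ⟨p, ?_⟩
  show IsLocalRing.residue O (phi hP h p) = IsLocalRing.residue O z
  rw [eq_comm, ← sub_eq_zero, ← map_sub, IsLocalRing.residue_eq_zero_iff, mem_max h.loc]
  exact hp

theorem res_ker (hP : Irreducible P) (h : IsComp F (IP P) (rf P) L O ι) :
    RingHom.ker (res hP h) = Ideal.span {P} := by
  ext p
  rw [RingHom.mem_ker, Ideal.mem_span_singleton, res_zero]

/-- The isomorphism with the residue field. -/
noncomputable def ek (hP : Irreducible P) (h : IsComp F (IP P) (rf P) L O ι) :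
    AdjoinRoot P ≃+* IsLocalRing.ResidueField O :=
  (Ideal.quotEquivOfEq (res_ker hP h).symm).trans
    (RingHom.quotientKerEquivOfSurjective (res_surj hP h))

theorem ek_mk (hP : Irreducible P) (h : IsComp F (IP P) (rf P) L O ι) (p : F[X]) :
    ek hP h (AdjoinRoot.mk P p) = res hP h p := rfl

theorem irr_iff (hP : Irreducible P) (h : IsComp F (IP P) (rf P) L O ι) (γ : F[X][X]) :
    Irreducible (γ.map (AdjoinRoot.mk P)) ↔ Irreducible (γ.map (res hP h)) := by
  have h1 : γ.map (res hP h) = Polynomial.mapEquiv (ek hP h) (γ.map (AdjoinRoot.mk P)) := by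
    rw [Polynomial.mapEquiv_apply, Polynomial.map_map]
    rfl
  rw [h1, MulEquiv.irreducible_iff]

theorem map_res_zero (hP : Irreducible P) (h : IsComp F (IP P) (rf P) L O ι) (D : F[X][X]) :
    D.map (res hP h) = 0 ↔ C P ∣ D := by
  rw [C_dvd_iff_dvd_coeff]
  constructor
  · intro hD n
    rw [← res_zero hP h, ← coeff_map, hD, coeff_zero]
  · intro hD
    ext n
    rw [coeff_map, coeff_zero, res_zero]
    exact hD n

theorem rd_map (hP : Irreducible P) (h : IsComp F (IP P) (rf P) L O ι) (D : F[X][X]) :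
    rd O (D.map (phi hP h)) = D.map (res hP h) := by
  rw [rd, Polynomial.map_map]
  rfl

theorem oL_map (hP : Irreducible P) (h : IsComp F (IP P) (rf P) L O ι) (D : F[X][X]) :
    oL O (D.map (phi hP h)) = (fK D).map ι := by
  rw [oL, Polynomial.map_map, fK, Polynomial.map_map]
  rfl

theorem oL_inj {p q : O[X]} (h : oL O p = oL O q) : p = q :=
  Polynomial.map_injective _ (FaithfulSMul.algebraMap_injective O L) h

/-- The uniformizer. -/
theorem phiP (hP : Irreducible P) (h : IsComp F (IP P) (rf P) L O ι) {ϖ : O}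
    (hϖ : (ϖ : L) = ι (rf P)) : phi hP h P = ϖ := Subtype.ext hϖ.symm

theorem rd_zero (h : IsComp F (IP P) (rf P) L O ι) {ϖ : O} (hϖ : (ϖ : L) = ι (rf P))
    (z : O[X]) (hz : rd O z = 0) : ∃ δ : O[X], z = C ϖ * δ := by
  have h1 : C ϖ ∣ z := by
    rw [C_dvd_iff_dvd_coeff]
    intro n
    have h2 : IsLocalRing.residue O (z.coeff n) = 0 := by
      rw [← coeff_map]
      show (rd O z).coeff n = 0
      rw [hz, coeff_zero]
    rw [IsLocalRing.residue_eq_zero_iff, mem_max h.loc] at h2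
    refine ⟨⟨_, h2⟩, Subtype.ext ?_⟩
    show (z.coeff n : L) = (ϖ : L) * ((z.coeff n : L) / ι (rf P))
    rw [hϖ, mul_div_cancel₀ _ h.loc.pi_ne]
  exact h1

theorem rd_lift (hP : Irreducible P) (h : IsComp F (IP P) (rf P) L O ι) {ϖ : O}
    (hϖ : (ϖ : L) = ι (rf P)) (z : O[X]) :
    ∃ (a : F[X][X]) (δ : O[X]), z = a.map (phi hP h) + C ϖ * δ := by
  obtain ⟨a, ha⟩ := Polynomial.map_surjective _ (res_surj hP h) (rd O z)
  obtain ⟨δ, hδ⟩ := rd_zero h hϖ (z - a.map (phi hP h)) (by
    rw [rd, Polynomial.map_sub]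
    show rd O z - rd O (a.map (phi hP h)) = 0
    rw [rd_map, ha, sub_self])
  exact ⟨a, δ, by rw [← hδ]; ring⟩

theorem sing (hP : Irreducible P) (h : IsComp F (IP P) (rf P) L O ι) {ϖ : O}
    (hϖ : (ϖ : L) = ι (rf P)) (f : F[X][X]) (γ : O[X]) (hm : γ.Monic)
    (hi : Irreducible (rd O γ)) (hs : InSq ϖ (f.map (phi hP h)) γ) : Sing P f := by
  obtain ⟨a, b, c, habc⟩ := hs
  have hl : rd O γ ∈ Polynomial.lifts (res hP h) := by
    rw [Polynomial.mem_lifts]
    exact Polynomial.map_surjective _ (res_surj hP h) (rd O γ)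
  obtain ⟨γ', hγ1, _, hγ3⟩ := Polynomial.lifts_and_natDegree_eq_and_monic hl (hm.map _)
  obtain ⟨δ, hδ⟩ := rd_zero h hϖ (γ - γ'.map (phi hP h)) (by
    rw [rd, Polynomial.map_sub]
    show rd O γ - rd O (γ'.map (phi hP h)) = 0
    rw [rd_map, hγ1, sub_self])
  obtain ⟨a1, a2, ha⟩ := rd_lift hP h hϖ a
  obtain ⟨a3, a4, ha'⟩ := rd_lift hP h hϖ a2
  obtain ⟨b1, b2, hb⟩ := rd_lift hP h hϖ (2 * δ * a + b)
  refine ⟨γ', a1 + C P * a3, b1, ?_⟩
  have h1 : ∃ c' : F[X][X], f - (γ' ^ 2 * (a1 + C P * a3) + C P * (γ' * b1)) = C (P ^ 2) * c' := by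
    show C (P ^ 2) ∣ _
    rw [C_dvd_iff_dvd_coeff]
    intro n
    rw [← dvd_iff hP h 2]
    have h2 : (f - (γ' ^ 2 * (a1 + C P * a3) + C P * (γ' * b1))).map (phi hP h) =
        C (ϖ ^ 2) * ((γ'.map (phi hP h)) ^ 2 * a4 + γ'.map (phi hP h) * b2 + δ ^ 2 * a +
          δ * b + c) := by
      have h3 : γ = γ'.map (phi hP h) + C ϖ * δ := by rw [← hδ]; ring
      rw [Polynomial.map_sub, habc]
      simp only [Polynomial.map_add, Polynomial.map_mul, Polynomial.map_pow, map_C, phiP hP h hϖ,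
        C_pow]
      rw [h3]
      linear_combination ((γ'.map (phi hP h)) ^ 2) * ha + C ϖ * (γ'.map (phi hP h)) ^ 2 * ha' +
        C ϖ * γ'.map (phi hP h) * hb
    have h4 := congrArg (fun q => ((q.coeff n : O) : L)) h2
    simp only [coeff_map, coeff_C_mul] at h4
    have h5 : ((phi hP h ((f - (γ' ^ 2 * (a1 + C P * a3) + C P * (γ' * b1))).coeff n) : O) : L) =
      ι (algebraMap F[X] (RatFunc F)
        ((f - (γ' ^ 2 * (a1 + C P * a3) + C P * (γ' * b1))).coeff n)) := rfl
    rw [← h5, h4]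
    rw [MulMemClass.coe_mul, SubmonoidClass.coe_pow, hϖ,
      mul_div_cancel_left₀ _ (pow_ne_zero 2 h.loc.pi_ne)]
    exact SetLike.coe_mem _
  obtain ⟨c', hc'⟩ := h1
  refine ⟨c', hγ3, ?_, ?_⟩
  · rw [irr_iff hP h, hγ1]
    exact hi
  · rw [← hc']
    ring

/-- Clearing denominators in `L[x]`. -/
theorem clr (h : IsComp F (IP P) (rf P) L O ι) {ϖ : O} (hϖ : (ϖ : L) = ι (rf P)) (z : L[X]) :
    ∃ (M : ℕ) (w : O[X]), oL O (C (ϖ ^ M)) * z = oL O w := by
  induction z using Polynomial.induction_on' with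
  | add p q hp hq =>
    obtain ⟨M1, w1, h1⟩ := hp
    obtain ⟨M2, w2, h2⟩ := hq
    refine ⟨M1 + M2, C (ϖ ^ M2) * w1 + C (ϖ ^ M1) * w2, ?_⟩
    simp only [oL, pow_add, C_mul, Polynomial.map_mul, Polynomial.map_add] at h1 h2 ⊢
    linear_combination (map (algebraMap O L) (C (ϖ ^ M2))) * h1 +
      (map (algebraMap O L) (C (ϖ ^ M1))) * h2
  | monomial n x =>
    by_cases hx : x = 0
    · refine ⟨0, 0, ?_⟩
      simp [hx]
    · obtain ⟨k, hk, _⟩ := h.loc.arch x hx
      have hp : (ι (rf P)) ≠ 0 := h.loc.pi_ne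
      have h1 : (ι (rf P)) ^ (-k).toNat * x ∈ O := by
        have h2 : (ι (rf P)) ^ (-k).toNat * x =
            (x / ι (rf P) ^ k) * (ι (rf P)) ^ (k + ((-k).toNat : ℤ)).toNat := by
          have h3 : (((k + ((-k).toNat : ℤ)).toNat : ℕ) : ℤ) = k + ((-k).toNat : ℤ) := by
            apply Int.toNat_of_nonneg
            omega
          rw [← zpow_natCast (ι (rf P)) (k + ((-k).toNat : ℤ)).toNat, h3, zpow_add₀ hp,
            ← zpow_natCast]
          field_simp
        rw [h2]
        exact mul_mem hk (pow_mem h.loc.pi_mem _)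
      refine ⟨(-k).toNat, monomial n ⟨_, h1⟩, ?_⟩
      rw [oL, oL, map_C, map_monomial, C_mul_monomial]
      congr 1
      show ((ϖ ^ (-k).toNat : O) : L) * x = ι (rf P) ^ (-k).toNat * x
      rw [SubmonoidClass.coe_pow, hϖ]

/-- Approximation of a polynomial over `L` by a polynomial over `F(t)`. -/
theorem apx (h : IsComp F (IP P) (rf P) L O ι) {ϖ : O} (hϖ : (ϖ : L) = ι (rf P)) (z : L[X])
    (N : ℕ) : ∃ (z0 : (RatFunc F)[X]) (w : O[X]), z = z0.map ι + oL O (C (ϖ ^ N)) * oL O w := by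
  induction z using Polynomial.induction_on' with
  | add p q hp hq =>
    obtain ⟨z1, w1, h1⟩ := hp
    obtain ⟨z2, w2, h2⟩ := hq
    refine ⟨z1 + z2, w1 + w2, ?_⟩
    simp only [oL, Polynomial.map_add] at h1 h2 ⊢
    linear_combination h1 + h2
  | monomial n x =>
    obtain ⟨y, hy⟩ := h.dense x N
    have hp : (ι (rf P)) ^ N ≠ 0 := pow_ne_zero _ h.loc.pi_ne
    refine ⟨monomial n y, monomial n ⟨_, hy⟩, ?_⟩
    rw [oL, oL, map_C, map_monomial, map_monomial, C_mul_monomial, ← map_add]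
    congr 1
    show x = ι y + ((ϖ ^ N : O) : L) * ((x - ι y) / ι (rf P) ^ N)
    rw [SubmonoidClass.coe_pow, hϖ]
    field_simp
    ring

/-- Common denominators. -/
theorem den (hP : Irreducible P) (r : (RatFunc F)[X]) (hr : ∀ n, r.coeff n ∈ IP P) :
    ∃ (m : F[X]) (q : F[X][X]), ¬ P ∣ m ∧ C (rf m) * r = fK q := by
  classical
  have hp : Prime P := hP.prime
  set m : F[X] := ∏ n ∈ r.support, (r.coeff n).denom with hm
  have h1 : C (rf m) * r ∈ Polynomial.lifts (algebraMap F[X] (RatFunc F)) := by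
    rw [Polynomial.lifts_iff_coeff_lifts]
    intro n
    rw [coeff_C_mul]
    by_cases hn : n ∈ r.support
    · have h2 : m = (r.coeff n).denom * ∏ k ∈ r.support.erase n, (r.coeff k).denom := by
        exact (Finset.mul_prod_erase r.support (fun k => (r.coeff k).denom) hn).symm
      refine ⟨(∏ k ∈ r.support.erase n, (r.coeff k).denom) * (r.coeff n).num, ?_⟩
      have hdn : rf (r.coeff n).denom ≠ 0 := by
        rw [Ne, map_eq_zero_iff _ (RatFunc.algebraMap_injective F)]
        exact RatFunc.denom_ne_zero _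
      have h3 := RatFunc.num_div_denom (r.coeff n)
      rw [div_eq_iff hdn] at h3
      rw [map_mul, h3, h2, rf, rf, map_mul]
      ring
    · rw [Polynomial.notMem_support_iff.1 hn, mul_zero]
      exact ⟨0, map_zero _⟩
  rw [Polynomial.mem_lifts] at h1
  obtain ⟨q, hq⟩ := h1
  refine ⟨m, q, ?_, hq.symm⟩
  rw [hm, hp.dvd_finsetProd_iff]
  rintro ⟨n, _, hn⟩
  exact hr n hn

/-- Descent of a class. -/
theorem main (hP : Irreducible P) (h : IsComp F (IP P) (rf P) L O ι) (f : F[X][X])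
    (hf : f.Monic) (u : (RatFunc F)[X]) (s : L[X]) (p : O[X])
    (hd : oL O (f.map (phi hP h)) ∣ u.map ι * s ^ 2 - oL O p) :
    ∃ (s1 : (RatFunc F)[X]) (q : F[X][X]), fK f ∣ u * s1 ^ 2 - fK q ∧
      q.map (res hP h) = rd O p := by
  set ϖ : O := ⟨ι (rf P), h.loc.pi_mem⟩ with hϖd
  have hϖ : (ϖ : L) = ι (rf P) := rfl
  obtain ⟨M, u', hu'⟩ := clr h hϖ (u.map ι)
  obtain ⟨M', s', hs'⟩ := clr h hϖ s
  obtain ⟨s0, w, hs0⟩ := apx h hϖ s (M + M' + 1)
  set fO : O[X] := f.map (phi hP h) with hfO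
  have hfOm : fO.Monic := hf.map _
  have hfKm : (fK f).Monic := hf.map _
  obtain ⟨p', hp'1, hp'2⟩ : ∃ p' : O[X], rd O p' = rd O p ∧
      oL O fO ∣ u.map ι * (s0.map ι) ^ 2 - oL O p' := by
    refine ⟨p - C ϖ * (2 * u' * s' * w - C (ϖ ^ (M + 2 * M' + 1)) * (u' * w ^ 2)), ?_, ?_⟩
    · have h0 : IsLocalRing.residue O ϖ = 0 := by
        rw [IsLocalRing.residue_eq_zero_iff, mem_max h.loc, hϖ, div_self h.loc.pi_ne]
        exact one_mem O
      rw [rd, Polynomial.map_sub, Polynomial.map_mul, map_C, h0, C_0, zero_mul, sub_zero]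
    · obtain ⟨c, hc⟩ := hd
      refine ⟨c, ?_⟩
      have h1 : s0.map ι = s - oL O (C (ϖ ^ (M + M' + 1))) * oL O w := by
        rw [hs0]
        ring
      have h2 : oL O (C (ϖ ^ (M + M' + 1))) = oL O (C ϖ) * oL O (C (ϖ ^ M)) *
          oL O (C (ϖ ^ M')) := by
        simp only [oL, map_C, ← map_mul]
        congr 2
        ring
      have h3 : oL O (C (ϖ ^ (M + M' + 1))) ^ 2 = oL O (C ϖ) * oL O (C (ϖ ^ M)) *
          oL O (C (ϖ ^ (M + 2 * M' + 1))) := by
        simp only [oL, map_C, ← map_mul, ← map_pow]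
        congr 2
        ring
      have h4 : oL O (p - C ϖ * (2 * u' * s' * w - C (ϖ ^ (M + 2 * M' + 1)) * (u' * w ^ 2))) =
          oL O p - oL O (C ϖ) * (2 * oL O u' * oL O s' * oL O w -
            oL O (C (ϖ ^ (M + 2 * M' + 1))) * (oL O u' * oL O w ^ 2)) := by
        simp only [oL, Polynomial.map_sub, Polynomial.map_mul, Polynomial.map_pow,
          Polynomial.map_ofNat]
      have h5 : u.map ι * (s0.map ι) ^ 2 = u.map ι * s ^ 2 -
          oL O (C ϖ) * (2 * oL O u' * oL O s' * oL O w -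
            oL O (C (ϖ ^ (M + 2 * M' + 1))) * (oL O u' * oL O w ^ 2)) := by
        rw [h1, ← hu', ← hs']
        have h6 : u.map ι * (s - oL O (C (ϖ ^ (M + M' + 1))) * oL O w) ^ 2 =
          u.map ι * s ^ 2 - 2 * (u.map ι) * s * oL O (C (ϖ ^ (M + M' + 1))) * oL O w +
            u.map ι * oL O w ^ 2 * oL O (C (ϖ ^ (M + M' + 1))) ^ 2 := by ring
        rw [h6, h3, h2]
        ring
      rw [h5, h4, ← hc]
      ring
  set r : (RatFunc F)[X] := (u * s0 ^ 2) %ₘ fK f with hr
  have hr1 : r.map ι = oL O (p' %ₘ fO) := by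
    rw [hr, Polynomial.map_modByMonic _ hfKm, oL, Polynomial.map_modByMonic _ hfOm]
    have h1 : (fK f).map ι = oL O fO := (oL_map hP h f).symm
    rw [h1]
    have h2 : (oL O fO).Monic := hfOm.map _
    have h3 := Polynomial.modByMonic_eq_of_dvd_sub h2 hp'2
    rw [← h3, Polynomial.map_mul, Polynomial.map_pow]
  have hr2 : ∀ n, r.coeff n ∈ IP P := by
    intro n
    rw [← h.mem, ← coeff_map, hr1, coeff_map]
    exact SetLike.coe_mem _
  obtain ⟨m, q0, hm, hq0⟩ := den hP r hr2
  obtain ⟨m', n', hmn⟩ := ((hP.coprime_iff_not_dvd).2 hm).symm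
  have hresm : res hP h m' * res hP h m = 1 := by
    have h1 := congrArg (res hP h) hmn
    rw [map_add, map_mul, map_mul, map_one, (res_zero hP h P).2 dvd_rfl, mul_zero, add_zero] at h1
    exact h1
  obtain ⟨l, hl⟩ := Polynomial.map_surjective _ (res_surj hP h) (rd O (p' /ₘ fO))
  refine ⟨C (rf (m * m')) * s0, C (m * m' * m') * q0 + f * l, ?_, ?_⟩
  · have h1 := Polynomial.modByMonic_add_div (u * s0 ^ 2) (fK f)
    refine ⟨C (rf (m * m')) ^ 2 * ((u * s0 ^ 2) /ₘ fK f) - fK l, ?_⟩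
    have h2 : fK (C (m * m' * m') * q0 + f * l) = C (rf (m' * m')) * C (rf m) * fK q0 +
        fK f * fK l := by
      simp only [fK, Polynomial.map_add, Polynomial.map_mul, map_C]
      rw [← C_mul, ← map_mul]
      congr 4
      ring
    rw [h2, ← hq0]
    have h3 : C (rf (m * m')) = (C (rf m) * C (rf m') : (RatFunc F)[X]) := by
      rw [← C_mul, ← map_mul]
    have h4 : C (rf (m' * m')) = (C (rf m') * C (rf m') : (RatFunc F)[X]) := by
      rw [← C_mul, ← map_mul]
    rw [h3, h4]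
    rw [← hr] at h1
    linear_combination (C (rf m) * C (rf m')) ^ 2 * (-h1)
  · have h1 : q0.map (phi hP h) = C (phi hP h m) * (p' %ₘ fO) := by
      apply oL_inj
      rw [oL_map, ← hq0, Polynomial.map_mul, hr1, oL, oL, Polynomial.map_mul, map_C, map_C]
      rfl
    have h2 : q0.map (res hP h) = C (res hP h m) * rd O (p' %ₘ fO) := by
      rw [← rd_map, h1, rd, Polynomial.map_mul, map_C]
      rfl
    rw [Polynomial.map_add, Polynomial.map_mul, Polynomial.map_mul, map_C, h2, hl, ← hp'1,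
      ← rd_map hP h f, ← hfO]
    have h3 := congrArg (rd O) (Polynomial.modByMonic_add_div p' fO)
    rw [rd, Polynomial.map_add, Polynomial.map_mul] at h3
    have h4 : C (res hP h (m * m' * m')) * (C (res hP h m) * rd O (p' %ₘ fO)) =
        rd O (p' %ₘ fO) := by
      have h5 : res hP h (m * m' * m') * res hP h m = 1 := by
        rw [map_mul, map_mul]
        linear_combination (res hP h m' * res hP h m + 1) * hresm
      rw [← mul_assoc, ← C_mul, h5, C_1, one_mul]
    rw [h4]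
    exact h3

/-- Units modulo `(P, f)` are prime to `f`. -/
theorem cop (hP : Irreducible P) (h : IsComp F (IP P) (rf P) L O ι) (f q : F[X][X])
    (hf : f.Monic) (hc : IsCoprime (q.map (res hP h)) (f.map (res hP h))) :
    IsCoprime (fK q) (fK f) := by
  by_contra hn
  have hfK : fK f ≠ 0 := (hf.map _).ne_zero
  obtain ⟨d, hd, hd1, hd2⟩ : ∃ d : (RatFunc F)[X], Irreducible d ∧ d ∣ fK q ∧ d ∣ fK f := by
    by_contra hno
    push Not at hno
    exact hn (isCoprime_of_irreducible_dvd (fun hh => hfK hh.2)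
      (fun z hz h1 h2 => hno z hz h1 h2))
  obtain ⟨d', hd'⟩ := IsIntegrallyClosed.eq_map_mul_C_of_dvd (RatFunc F) hf hd2
  have hlc : d.leadingCoeff ≠ 0 := leadingCoeff_ne_zero.2 hd.ne_zero
  have h1 : fK d' = d * C (d.leadingCoeff)⁻¹ := by
    have h2 : C d.leadingCoeff * C (d.leadingCoeff)⁻¹ = (1 : (RatFunc F)[X]) := by
      rw [← C_mul, mul_inv_cancel₀ hlc, C_1]
    linear_combination C (d.leadingCoeff)⁻¹ * hd' - fK d' * h2
  have hmon : (fK d').Monic := by
    rw [h1]
    exact monic_mul_leadingCoeff_inv hd.ne_zero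
  have hinj := RatFunc.algebraMap_injective F
  have hm' : d'.Monic := Polynomial.monic_of_injective hinj hmon
  have hdd : fK d' ∣ d := ⟨C d.leadingCoeff, hd'.symm⟩
  have h3 : d' ∣ q := (Polynomial.map_dvd_map _ hinj hm').1 (hdd.trans hd1)
  have h4 : d' ∣ f := (Polynomial.map_dvd_map _ hinj hm').1 (hdd.trans hd2)
  have h5 : IsUnit (d'.map (res hP h)) :=
    hc.isUnit_of_dvd' (Polynomial.map_dvd _ h3) (Polynomial.map_dvd _ h4)
  have h6 : d'.natDegree = 0 := by
    rw [← hm'.natDegree_map (res hP h)]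
    exact natDegree_eq_zero_of_isUnit h5
  have h7 : d' = 1 := hm'.natDegree_eq_zero.1 h6
  apply hd.not_isUnit
  rw [← hd', h7, Polynomial.map_one, one_mul]
  exact isUnit_C.2 (isUnit_iff_ne_zero.2 hlc)

end Pool.HYP.INO

namespace Pool.HYP

open Polynomial Matrix Pool.AVS Pool.AVS.RIP Pool.HYP.INO

theorem ino : INOStmt := by
  intro F _ _ P _ hP L _ O ι h f hf
  refine ⟨f.map (phi hP h), hf.map _, hf.natDegree_map _, oL_map hP h f, ?_, ?_, ?_, ?_⟩
  · intro ϖ hϖ γ hm hi hs
    exact sing hP h hϖ f γ hm hi hs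
  · intro c γ g hok hd
    obtain ⟨_, _, h3, h4, h5⟩ := hok
    refine ⟨res hP h c, γ.map (res hP h), h3.map _, by rw [h3.natDegree_map, h4],
      (irr_iff hP h γ).1 h5, ?_⟩
    have h6 := (map_res_zero hP h _).2 hd
    rw [Polynomial.map_sub, Polynomial.map_mul, Polynomial.map_sub, map_X, map_C,
      sub_eq_zero] at h6
    rw [rd_map, h6]
  · intro u _
    constructor
    · rintro ⟨s, p, _, hd, hc⟩
      obtain ⟨s1, q, h1, h2⟩ := main hP h f hf u s p hd
      rw [← h2, rd_map] at hc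
      have h3 := cop hP h f q hf hc
      refine ⟨s1, q, ?_, h1, ?_⟩
      · obtain ⟨c, hc'⟩ := h1
        have h4 : IsCoprime (u * s1 ^ 2) (fK f) := by
          have h5 : u * s1 ^ 2 = fK q + fK f * c := by rw [← hc']; ring
          rw [h5]
          exact h3.add_mul_left_left c
        exact (h4.of_mul_left_right).of_isCoprime_of_dvd_left ⟨s1, by ring⟩
      · obtain ⟨A, B, hAB⟩ := hc
        obtain ⟨a, rfl⟩ := Polynomial.map_surjective _ (res_surj hP h) A
        obtain ⟨b, rfl⟩ := Polynomial.map_surjective _ (res_surj hP h) B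
        have h4 : C P ∣ a * q + b * f - 1 := by
          rw [← map_res_zero hP h, Polynomial.map_sub, Polynomial.map_add, Polynomial.map_mul,
            Polynomial.map_mul, hAB, Polynomial.map_one, sub_self]
        obtain ⟨c, hc'⟩ := h4
        exact ⟨a, b, -c, by linear_combination hc'⟩
    · rintro ⟨s, p, hs, hd, a, b, c, habc⟩
      refine ⟨s.map ι, p.map (phi hP h), ?_, ?_, ?_⟩
      · rw [oL_map]
        exact hs.map (Polynomial.mapRingHom ι)
      · rw [oL_map, oL_map]
        have h1 := Polynomial.map_dvd ι hd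
        rwa [Polynomial.map_sub, Polynomial.map_mul, Polynomial.map_pow] at h1
      · rw [rd_map, rd_map]
        refine ⟨a.map (res hP h), b.map (res hP h), ?_⟩
        have h1 := congrArg (Polynomial.map (res hP h)) habc
        simp only [Polynomial.map_add, Polynomial.map_mul, map_C, Polynomial.map_one,
          (res_zero hP h P).2 dvd_rfl, C_0, zero_mul, add_zero] at h1
        exact h1
  · intro u _ ht
    obtain ⟨s, p, _, hd, h1⟩ := ht
    obtain ⟨s1, q, h2, h3⟩ := main hP h f hf u s p hd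
    rw [h1] at h3
    have h4 : C P ∣ q - 1 := by
      rw [← map_res_zero hP h, Polynomial.map_sub, h3, Polynomial.map_one, sub_self]
    obtain ⟨p1, hp1⟩ := h4
    have hq : q = 1 + C P * p1 := by rw [← hp1]; ring
    have h5 : IsCoprime (fK q) (fK f) := cop hP h f q hf (by rw [h3]; exact isCoprime_one_left)
    refine ⟨s1, p1, ?_, ?_⟩
    · obtain ⟨c, hc'⟩ := h2
      have h4 : IsCoprime (u * s1 ^ 2) (fK f) := by
        have h6 : u * s1 ^ 2 = fK q + fK f * c := by rw [← hc']; ring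
        rw [h6]
        exact h5.add_mul_left_left c
      exact (h4.of_mul_left_right).of_isCoprime_of_dvd_left ⟨s1, by ring⟩
    · rw [← hq]
      exact h2

end Pool.HYP

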